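import Pool.Agent.H7.Book

set_option autoImplicit false

namespace Pool.Agent.Results.MP_c8a2a1_co.Unbounded

open Pool.Agent.H7.Book

/-- In every book with at least three pages there are order-preservingly embedded bounded
aographs of arbitrarily large dimension. -/
theorem result (n : ℕ) (hn : 3 ≤ n) (d : Fin n → ℝ × ℝ)
    (hd : ∀ i, (d i).1 ^ 2 + (d i).2 ^ 2 = 1) (hinj : Function.Injective d) (C : ℕ) :
    ∃ (N : ℕ) (E : Fin N → Fin N → Prop), Acyclic E ∧ Bounded E ∧ OrderEmbeds E (book d) ∧
      ∀ t : ℕ, HasRealizer E t → C < t :=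
  ⟨4 * (C + 2) + 2, K (C + 2), K_acyclic _, K_bounded _ (by omega), K_embeds _ hn d hd hinj,
    fun t ht => by have := K_dim _ _ ht; omega⟩

end Pool.Agent.Results.MP_c8a2a1_co.Unbounded
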